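import Pool.Agent.U722.FF.Stm4

set_option autoImplicit false
set_option linter.unusedSectionVars false

/-! Project LB, package MPERM (helper95): permutation modules with finitely many orbits (after
`Pool.Agent.U165.FFP.PERM`). -/

namespace Pool.Agent.U95.LBP

open TH57.FF Matrix MulAction U722.FF

/-- an invariant subset -/
@[ext] structure Sb {X : Type} (P : X → Prop) : Type where
  v : X
  p : P v

/-- the action on an invariant subset -/
@[reducible] def sact {G X : Type} [Group G] [MulAction G X] (P : X → Prop)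
    (hP : ∀ (g : G) x, P x → P (g • x)) : MulAction G (Sb P) where
  smul g y := ⟨g • y.v, hP g _ y.p⟩
  one_smul y := Sb.ext (one_smul G y.v)
  mul_smul g h y := Sb.ext (mul_smul g h y.v)

/-- resolutions and isomorphisms -/
theorem mr_equiv {R U : Type} [Ring R] [Ring U] (ψ : R →+* U) (k : ℕ) (M M' : Type)
    [AddCommGroup M] [Module R M] [AddCommGroup M'] [Module R M'] (e : M ≃ₗ[R] M')
    (h : MR ψ k M) : MR ψ k M' := by
  obtain ⟨N, ι, i1, d, ε, h1, h2, h3, h4, h5, h6⟩ := h
  refine ⟨N, ι, i1, d, e.toLinearMap.comp ε, h1, ?_, ?_, h4, h5, h6⟩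
  · intro m
    obtain ⟨v, hv⟩ := h2 (e.symm m)
    refine ⟨v, ?_⟩
    show e (ε v) = m
    rw [hv, LinearEquiv.apply_symm_apply]
  · intro v
    rw [← h3 v]
    show e (ε v) = 0 ↔ ε v = 0
    exact e.map_eq_zero_iff

/-- the zero module -/
theorem mr_zero {R U : Type} [Ring R] [Ring U] (ψ : R →+* U) (k : ℕ) (M : Type)
    [AddCommGroup M] [Module R M] [Subsingleton M] : MR ψ k M := by
  refine ⟨0, fun _ => Empty, fun _ => inferInstance, fun _ => 0, 0, fun _ _ => inferInstance,
    ?_, ?_, ?_, ?_, ?_⟩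
  · intro m
    exact ⟨0, Subsingleton.elim _ _⟩
  · intro v
    exact ⟨fun _ => ⟨0, Subsingleton.elim _ _⟩, fun _ => Subsingleton.elim _ _⟩
  · intro n v
    exact ⟨fun _ => ⟨0, Subsingleton.elim _ _⟩, fun _ => Subsingleton.elim _ _⟩
  · intro _ v
    exact ⟨0, Subsingleton.elim _ _⟩
  · intro n _ v _
    exact ⟨0, Subsingleton.elim _ _⟩

section split

variable {G X : Type} [Group G] [MulAction G X]

open Classical in
/-- the permutation module of a disjoint union -/
theorem split (P Q : X → Prop) (hPQ : ∀ x, Q x ↔ ¬ P x)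
    (hP : ∀ (g : G) x, P x → P (g • x))
    (hP' : ∀ (g : G) x, Q x → Q (g • x)) :
    letI := sact P hP
    letI := sact Q hP'
    Nonempty ((PM G (Sb P) × PM G (Sb Q)) ≃ₗ[MonoidAlgebra ℤ G] PM G X) := by
  let i1 := sact P hP
  let i2 := sact Q hP'
  have hs1 : ∀ (g : G) (y : Sb P), (g • y).v = g • y.v := fun g y => rfl
  have hs2 : ∀ (g : G) (y : Sb Q), (g • y).v = g • y.v := fun g y => rfl
  let f : PM G (Sb P) →ₗ[MonoidAlgebra ℤ G] PM G X :=
    PMlift (fun y => pt G y.v) (by intro g y; rw [of_smul_pt, hs1])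
  let f' : PM G (Sb Q) →ₗ[MonoidAlgebra ℤ G] PM G X :=
    PMlift (fun y => pt G y.v) (by intro g y; rw [of_smul_pt, hs2])
  let F : X → PM G (Sb Q) := fun x => if h : Q x then pt G (Sb.mk x h) else 0
  have hF1 : ∀ (x : X) (h : Q x), F x = pt G (Sb.mk x h) := fun x h => dif_pos h
  have hF2 : ∀ (x : X), ¬ Q x → F x = 0 := fun x h => dif_neg h
  have hg : ∀ (g : G) (x : X), F (g • x) = MonoidAlgebra.of ℤ G g • F x := by
    intro g x
    by_cases h : Q x
    · rw [hF1 x h, hF1 _ (hP' g x h), of_smul_pt]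
      rfl
    · have h' : ¬ Q (g • x) := by
        rw [hPQ, not_not] at h ⊢
        exact hP g x h
      rw [hF2 _ h, hF2 _ h', smul_zero]
  let E : X → PM G (Sb P) := fun x => if h : P x then pt G (Sb.mk x h) else 0
  have hE1 : ∀ (x : X) (h : P x), E x = pt G (Sb.mk x h) := fun x h => dif_pos h
  have hE2 : ∀ (x : X), ¬ P x → E x = 0 := fun x h => dif_neg h
  have hge : ∀ (g : G) (x : X), E (g • x) = MonoidAlgebra.of ℤ G g • E x := by
    intro g x
    by_cases h : P x
    · rw [hE1 x h, hE1 _ (hP g x h), of_smul_pt]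
      rfl
    · have h' : ¬ P (g • x) := (hPQ _).1 (hP' g x ((hPQ x).2 h))
      rw [hE2 _ h, hE2 _ h', smul_zero]
  let gg : PM G X →ₗ[MonoidAlgebra ℤ G] PM G (Sb Q) := PMlift F hg
  let r : PM G X →ₗ[MonoidAlgebra ℤ G] PM G (Sb P) := PMlift E hge
  have hf : ∀ y, f (pt G y) = pt G y.v := fun y => PMlift_pt _ _ y
  have hf' : ∀ y, f' (pt G y) = pt G y.v := fun y => PMlift_pt _ _ y
  have hg1 : ∀ x, P x → gg (pt G x) = 0 := by
    intro x h
    have h' : ¬ Q x := by
      rw [hPQ, not_not]
      exact h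
    exact (PMlift_pt F hg x).trans (hF2 x h')
  have hg2 : ∀ (x : X) (h : Q x), gg (pt G x) = pt G (Sb.mk x h) := by
    intro x h
    exact (PMlift_pt F hg x).trans (hF1 x h)
  have hr1 : ∀ (x : X) (h : P x), r (pt G x) = pt G (Sb.mk x h) := by
    intro x h
    exact (PMlift_pt E hge x).trans (hE1 x h)
  have hr2 : ∀ (x : X), Q x → r (pt G x) = 0 := by
    intro x h
    exact (PMlift_pt E hge x).trans (hE2 x ((hPQ x).1 h))
  have e1 : ∀ a, r (f a) = a := by
    intro a
    induction a using PM_induction with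
    | h0 => rw [map_zero, map_zero]
    | h1 y => rw [hf, hr1 y.v y.p]
    | h2 a b ha hb => rw [map_add, map_add, ha, hb]
    | h3 a ha => rw [map_neg, map_neg, ha]
  have e2 : ∀ a, gg (f' a) = a := by
    intro a
    induction a using PM_induction with
    | h0 => rw [map_zero, map_zero]
    | h1 y => rw [hf', hg2 y.v y.p]
    | h2 a b ha hb => rw [map_add, map_add, ha, hb]
    | h3 a ha => rw [map_neg, map_neg, ha]
  have e3 : ∀ a, gg (f a) = 0 := by
    intro a
    induction a using PM_induction with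
    | h0 => rw [map_zero, map_zero]
    | h1 y => rw [hf, hg1 y.v y.p]
    | h2 a b ha hb => rw [map_add, map_add, ha, hb, add_zero]
    | h3 a ha => rw [map_neg, map_neg, ha, neg_zero]
  have e5 : ∀ a, r (f' a) = 0 := by
    intro a
    induction a using PM_induction with
    | h0 => rw [map_zero, map_zero]
    | h1 y => rw [hf', hr2 y.v y.p]
    | h2 a b ha hb => rw [map_add, map_add, ha, hb, add_zero]
    | h3 a ha => rw [map_neg, map_neg, ha, neg_zero]
  have e4 : ∀ b, f (r b) + f' (gg b) = b := by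
    intro b
    induction b using PM_induction with
    | h0 => rw [map_zero, map_zero, map_zero, map_zero, add_zero]
    | h1 x =>
      by_cases h : P x
      · rw [hr1 x h, hf, hg1 x h, map_zero, add_zero]
      · have h' : Q x := (hPQ x).2 h
        rw [hr2 x h', map_zero, hg2 x h', hf', zero_add]
    | h2 a b ha hb =>
      rw [map_add, map_add, map_add, map_add]
      calc f (r a) + f (r b) + (f' (gg a) + f' (gg b))
          = (f (r a) + f' (gg a)) + (f (r b) + f' (gg b)) := by abel
        _ = a + b := by rw [ha, hb]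
    | h3 a ha =>
      rw [map_neg, map_neg, map_neg, map_neg]
      calc -f (r a) + -f' (gg a) = -(f (r a) + f' (gg a)) := by abel
        _ = -a := by rw [ha]
  refine ⟨LinearEquiv.ofLinearMap (f.coprod f') (r.prod gg) ?_ ?_⟩
  · refine LinearMap.ext fun b => ?_
    exact e4 b
  · refine LinearMap.ext fun p => ?_
    refine Prod.ext ?_ ?_
    · show r (f p.1 + f' p.2) = p.1
      rw [map_add, e1, e5, add_zero]
    · show gg (f p.1 + f' p.2) = p.2
      rw [map_add, e2, e3, zero_add]

/-- the condition on a subgroup -/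
def St {U : Type} [Ring U] (c : G →* U) (k : ℕ) (H : Subgroup G) : Prop :=
  MR (V7N.evM (c.comp H.subtype)) k (PM ↥H PUnit.{1})

theorem stab_eq {U : Type} [Ring U] (c : G →* U) (k : ℕ) (P : X → Prop)
    (hP : ∀ (g : G) x, P x → P (g • x)) (y : Sb P) (h : St c k (stabilizer G y.v)) :
    letI := sact P hP; St c k (stabilizer G y) := by
  let i1 := sact P hP
  have h1 : stabilizer G y = stabilizer G y.v := by
    ext g
    rw [mem_stabilizer_iff, mem_stabilizer_iff]
    exact Sb.ext_iff
  rw [h1]
  exact h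

end split

theorem main (h1 : S_MPROD) (h2 : S_MIND) (G U : Type) [Group G] [Ring U] (c : G →* U) (k : ℕ) :
    ∀ (n : ℕ) (X : Type) [MulAction G X],
    (∃ S : Finset X, S.card ≤ n ∧ ∀ y : X, ∃ g : G, ∃ x ∈ S, g • x = y) →
    (∀ x : X, St c k (stabilizer G x)) → MR (V7N.evM c) k (PM G X) := by
  classical
  intro n
  induction n with
  | zero =>
    intro X _ hS _
    obtain ⟨S, hS, h⟩ := hS
    have hS' : S = ∅ := Finset.card_eq_zero.1 (by omega)
    have : IsEmpty X := ⟨fun y => by
      obtain ⟨g, x, hx, _⟩ := h y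
      rw [hS'] at hx
      exact absurd hx (Finset.notMem_empty x)⟩
    have : Subsingleton (PM G X) := inferInstanceAs (Subsingleton (X →₀ ℤ))
    exact mr_zero _ _ _
  | succ n ih =>
    intro X _ hS hst
    obtain ⟨S, hS, h⟩ := hS
    rcases S.eq_empty_or_nonempty with hS' | ⟨x₀, hx₀⟩
    · exact ih X ⟨S, by rw [hS']; simp, h⟩ hst
    · let P : X → Prop := fun x => ∃ g : G, g • x₀ = x
      let Q : X → Prop := fun x => ¬ P x
      have hP : ∀ (g : G) x, P x → P (g • x) := by
        rintro g x ⟨k, rfl⟩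
        exact ⟨g * k, mul_smul g k x₀⟩
      have hP' : ∀ (g : G) x, Q x → Q (g • x) := by
        intro g x hx hgx
        apply hx
        have := hP g⁻¹ _ hgx
        rwa [inv_smul_smul] at this
      obtain ⟨e⟩ := split P Q (fun x => Iff.rfl) hP hP'
      let i1 := sact P hP
      let i2 := sact Q hP'
      refine mr_equiv _ _ _ _ e (h1 _ _ _ _ _ _ ?_ ?_)
      · refine h2 G (Sb P) U c k ⟨x₀, 1, one_smul G x₀⟩ ?_ ?_
        · rintro ⟨y, k, rfl⟩
          exact ⟨k, rfl⟩
        · exact stab_eq c k P hP _ (hst _)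
      · refine ih (Sb Q) ?_ ?_
        · refine ⟨((S.erase x₀).subtype Q).image (fun z => Sb.mk z.1 z.2), ?_, ?_⟩
          · refine Finset.card_image_le.trans ?_
            rw [Finset.card_subtype]
            refine (Finset.card_filter_le _ _).trans ?_
            rw [Finset.card_erase_of_mem hx₀]
            omega
          · rintro ⟨y, hy⟩
            obtain ⟨g, x, hx, hxy⟩ := h y
            have hx' : Q x := by
              intro hx'
              apply hy
              rw [← hxy]
              exact hP g x hx'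
            refine ⟨g, Sb.mk x hx', ?_, Sb.ext hxy⟩
            rw [Finset.mem_image]
            refine ⟨⟨x, hx'⟩, ?_, rfl⟩
            rw [Finset.mem_subtype]
            refine Finset.mem_erase.2 ⟨?_, hx⟩
            intro hxx
            apply hx'
            exact ⟨1, by rw [one_smul]; exact hxx.symm⟩
        · intro y
          exact stab_eq c k Q hP' y (hst _)

/-- (MPERM) permutation modules -/
theorem t_MPERM (h1 : S_MPROD) (h2 : S_MIND) : S_MPERM := by
  intro G X U _ _ _ c k ⟨S, hS⟩ hst
  exact main h1 h2 G U c k S.card X ⟨S, le_rfl, hS⟩ hst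

end Pool.Agent.U95.LBP
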